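import Mathlib

set_option autoImplicit false

/-!
# Reduced clique graphs of chordal graphs contain arbitrarily long induced cycles
-/

namespace Pool.Agent.Results.MP_0a00ee_co.LongInducedCycles

variable {V : Type}

/-- `G` is chordal: it has no induced cycle of length at least four. -/
def Chordal (G : SimpleGraph V) : Prop := ∀ k : ℕ, 4 ≤ k → IsEmpty (SimpleGraph.cycleGraph k ↪g G)

/-- The maximal cliques of `G`. -/
def IsMaxClique (G : SimpleGraph V) (K : Set V) : Prop := Maximal (fun s => G.IsClique s) K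

/-- `K` and `K'` form a separating pair: they meet, and every walk from `K \ K'` to `K' \ K` meets
`K ∩ K'`. -/
def SepPair (G : SimpleGraph V) (K K' : Set V) : Prop :=
  (K ∩ K').Nonempty ∧ ∀ u ∈ K \ K', ∀ v ∈ K' \ K, ∀ p : G.Walk u v, ∃ w ∈ p.support, w ∈ K ∩ K'

lemma SepPair.symm {G : SimpleGraph V} {K K' : Set V} (h : SepPair G K K') : SepPair G K' K := by
  refine ⟨by rw [Set.inter_comm]; exact h.1, fun u hu v hv p => ?_⟩
  obtain ⟨w, hw, hw'⟩ := h.2 v hv u hu p.reverse
  refine ⟨w, ?_, by rw [Set.inter_comm]; exact hw'⟩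
  rw [SimpleGraph.Walk.support_reverse] at hw
  exact List.mem_reverse.mp hw

/-- The reduced clique graph of `G`: its vertices are the maximal cliques, two distinct maximal
cliques being adjacent when they form a separating pair. -/
def CR (G : SimpleGraph V) : SimpleGraph {K : Set V // IsMaxClique G K} where
  Adj K K' := K ≠ K' ∧ SepPair G K.1 K'.1
  symm := ⟨fun _ _ h => ⟨h.1.symm, h.2.symm⟩⟩
  loopless := ⟨fun _ h => h.1 rfl⟩

/-! ### Split graphs from families of sets -/

section split

variable {P : Type} (S : P → Set P)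

/-- The split graph with clique `P`, and with a further vertex `inr i` for every `i : P`, joined to
the elements of `S i`. -/
def splitGraph : SimpleGraph (P ⊕ P) where
  Adj
    | .inl x, .inl y => x ≠ y
    | .inl x, .inr i => x ∈ S i
    | .inr i, .inl x => x ∈ S i
    | .inr _, .inr _ => False
  symm := ⟨by
    rintro (x | i) (y | j) h
    · exact Ne.symm h
    · exact h
    · exact h
    · exact h⟩
  loopless := ⟨by
    rintro (x | i) h
    · exact h rfl
    · exact h⟩

/-- Consecutive vertices of an induced cycle. -/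
lemma chordal_split : Chordal (splitGraph S) := by
  intro k hk
  constructor
  intro f
  obtain ⟨m, rfl⟩ : ∃ m, k = m + 4 := ⟨k - 4, by omega⟩
  have v1 : ((1 : Fin (m + 4)) : ℕ) = 1 := by
    rw [Fin.val_one']; exact Nat.mod_eq_of_lt (by omega)
  have v2 : ((1 + 1 : Fin (m + 4)) : ℕ) = 2 := by
    rw [Fin.val_add, v1]; exact Nat.mod_eq_of_lt (by omega)
  have v3 : ((1 + 1 + 1 : Fin (m + 4)) : ℕ) = 3 := by
    rw [Fin.val_add, v2, v1]; exact Nat.mod_eq_of_lt (by omega)
  have v0 : ((0 : Fin (m + 4)) : ℕ) = 0 := rfl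
  have n1 : (1 : Fin (m + 4)) ≠ 0 := fun h => by
    have := congrArg Fin.val h
    rw [v1, v0] at this
    exact absurd this (by norm_num)
  have n2 : (1 + 1 : Fin (m + 4)) ≠ 0 := fun h => by
    have := congrArg Fin.val h
    rw [v2, v0] at this
    exact absurd this (by norm_num)
  have n3 : (1 + 1 + 1 : Fin (m + 4)) ≠ 0 := fun h => by
    have := congrArg Fin.val h
    rw [v3, v0] at this
    exact absurd this (by norm_num)
  -- adjacency in the cycle
  have hadj : ∀ i : Fin (m + 4), (SimpleGraph.cycleGraph (m + 4)).Adj i (i + 1) := by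
    intro i
    rw [SimpleGraph.cycleGraph_adj]
    right
    abel
  have hn2 : ∀ i : Fin (m + 4), ¬ (SimpleGraph.cycleGraph (m + 4)).Adj i (i + 1 + 1) := by
    intro i h
    rw [SimpleGraph.cycleGraph_adj] at h
    rcases h with h | h
    · apply n3
      calc (1 + 1 + 1 : Fin (m + 4)) = 1 + 1 + (i - (i + 1 + 1)) := by rw [h]
        _ = 0 := by abel
    · apply n1
      calc (1 : Fin (m + 4)) = (i + 1 + 1 - i) - 1 := by abel
        _ = 0 := by rw [h]; abel
  have hne2 : ∀ i : Fin (m + 4), i ≠ i + 1 + 1 := by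
    intro i h
    apply n2
    calc (1 + 1 : Fin (m + 4)) = (i + 1 + 1) - i := by abel
      _ = i - i := by rw [← h]
      _ = 0 := by abel
  -- among the vertices `i`, `i+2` one lies outside of the clique
  have hA : ∀ i : Fin (m + 4), ¬ (∃ x y, f i = Sum.inl x ∧ f (i + 1 + 1) = Sum.inl y) := by
    rintro i ⟨x, y, hx, hy⟩
    apply hn2 i
    rw [← f.map_adj_iff, hx, hy]
    intro e
    apply hne2 i
    apply f.injective
    rw [hx, hy, e]
  have hB : ∀ i : Fin (m + 4), ¬ (∃ x y, f i = Sum.inr x ∧ f (i + 1) = Sum.inr y) := by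
    rintro i ⟨x, y, hx, hy⟩
    have := (f.map_adj_iff).mpr (hadj i)
    rw [hx, hy] at this
    exact this
  -- the vertex `i` is always outside of the clique
  have hC : ∀ i : Fin (m + 4), ∃ x, f i = Sum.inr x := by
    intro i
    rcases h0 : f i with x | x
    · exfalso
      rcases h2 : f (i + 1 + 1) with y | y
      · exact hA i ⟨x, y, h0, h2⟩
      · rcases h1 : f (i + 1) with z | z
        · rcases h3 : f (i + 1 + 1 + 1) with w | w
          · exact hA (i + 1) ⟨z, w, h1, h3⟩
          · exact hB (i + 1 + 1) ⟨y, w, h2, h3⟩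
        · exact hB (i + 1) ⟨z, y, h1, h2⟩
    · exact ⟨x, rfl⟩
  obtain ⟨x, hx⟩ := hC 0
  obtain ⟨y, hy⟩ := hC (0 + 1)
  exact hB 0 ⟨x, y, hx, hy⟩

/-- The clique of the vertex `inr i`. -/
def K (i : P) : Set (P ⊕ P) := {v | v = Sum.inr i ∨ ∃ x ∈ S i, v = Sum.inl x}

lemma K_max (i : P) : IsMaxClique (splitGraph S) (K S i) := by
  refine ⟨?_, ?_⟩
  · rintro u hu v hv huv
    rcases hu with rfl | ⟨x, hx, rfl⟩
    · rcases hv with rfl | ⟨y, hy, rfl⟩
      · exact absurd rfl huv
      · exact hy
    · rcases hv with rfl | ⟨y, hy, rfl⟩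
      · exact hx
      · exact fun e => huv (by rw [e])
  · intro L hL hKL u hu
    have hi : (Sum.inr i : P ⊕ P) ∈ L := hKL (Or.inl rfl)
    by_cases hui : u = Sum.inr i
    · exact Or.inl hui
    · have hadj := hL hi hu (Ne.symm hui)
      rcases u with x | j
      · exact Or.inr ⟨x, hadj, rfl⟩
      · exact hadj.elim

/-- The clique of `i` as a vertex of the reduced clique graph. -/
def KK (i : P) : {K : Set (P ⊕ P) // IsMaxClique (splitGraph S) K} := ⟨K S i, K_max S i⟩

lemma KK_inj : Function.Injective (KK S) := by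
  intro i j h
  have h1 : K S i = K S j := congrArg Subtype.val h
  have h2 : (Sum.inr i : P ⊕ P) ∈ K S j := by
    rw [← h1]; exact Or.inl rfl
  rcases h2 with h2 | ⟨x, _, h2⟩
  · exact Sum.inr_injective h2
  · exact absurd h2 (by simp)

lemma sep_of_subset (i j : P) (hne : (S i).Nonempty) (h : S i ⊆ S j) :
    SepPair (splitGraph S) (K S i) (K S j) := by
  constructor
  · obtain ⟨x, hx⟩ := hne
    exact ⟨Sum.inl x, Or.inr ⟨x, hx, rfl⟩, Or.inr ⟨x, h hx, rfl⟩⟩
  · rintro u ⟨hu, hu'⟩ v ⟨hv, hv'⟩ p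
    have hui : u = Sum.inr i := by
      rcases hu with hu | ⟨x, hx, hu⟩
      · exact hu
      · exact absurd (Or.inr ⟨x, h hx, hu⟩) hu'
    subst hui
    cases p with
    | nil => exact absurd (Or.inl rfl) hv'
    | @cons _ w _ hadj q =>
      refine ⟨w, ?_, ?_⟩
      · rw [SimpleGraph.Walk.support_cons]
        exact List.mem_cons_of_mem _ q.start_mem_support
      · rcases w with x | j'
        · exact ⟨Or.inr ⟨x, hadj, rfl⟩, Or.inr ⟨x, h hadj, rfl⟩⟩
        · exact hadj.elim

lemma not_sep (i j : P) (hij : i ≠ j) (h1 : ¬ S i ⊆ S j) (h2 : ¬ S j ⊆ S i) :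
    ¬ SepPair (splitGraph S) (K S i) (K S j) := by
  rintro ⟨_, hp⟩
  obtain ⟨a, ha, ha'⟩ := Set.not_subset.mp h1
  obtain ⟨b, hb, hb'⟩ := Set.not_subset.mp h2
  have hab : a ≠ b := fun e => ha' (e ▸ hb)
  have e1 : (splitGraph S).Adj (Sum.inr i) (Sum.inl a) := ha
  have e2 : (splitGraph S).Adj (Sum.inl a) (Sum.inl b) := hab
  have e3 : (splitGraph S).Adj (Sum.inl b) (Sum.inr j) := hb
  have nij : (Sum.inr i : P ⊕ P) ∉ K S j := by
    rintro (h | ⟨x, _, h⟩)
    · exact hij (Sum.inr_injective h)
    · exact absurd h (by simp)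
  have nji : (Sum.inr j : P ⊕ P) ∉ K S i := by
    rintro (h | ⟨x, _, h⟩)
    · exact hij (Sum.inr_injective h).symm
    · exact absurd h (by simp)
  have naj : (Sum.inl a : P ⊕ P) ∉ K S j := by
    rintro (h | ⟨x, hx, h⟩)
    · exact absurd h (by simp)
    · exact ha' (Sum.inl_injective h ▸ hx)
  have nbi : (Sum.inl b : P ⊕ P) ∉ K S i := by
    rintro (h | ⟨x, hx, h⟩)
    · exact absurd h (by simp)
    · exact hb' (Sum.inl_injective h ▸ hx)
  obtain ⟨w, hw, hw1, hw2⟩ := hp (Sum.inr i) ⟨Or.inl rfl, nij⟩ (Sum.inr j) ⟨Or.inl rfl, nji⟩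
    (SimpleGraph.Walk.cons e1 (SimpleGraph.Walk.cons e2 (SimpleGraph.Walk.cons e3
      SimpleGraph.Walk.nil)))
  simp only [SimpleGraph.Walk.support_cons, SimpleGraph.Walk.support_nil, List.mem_cons,
    List.not_mem_nil, or_false] at hw
  rcases hw with rfl | rfl | rfl | rfl
  · exact nij hw2
  · exact naj hw2
  · exact nbi hw1
  · exact nji hw1

end split

/-- Every finite bipartite graph is an induced subgraph of the reduced clique graph of a finite
chordal graph. -/
theorem bipartite_embeds {W : Type} [Finite W] (B : SimpleGraph W) (c : B.Coloring Bool) :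
    ∃ (V : Type) (_ : Finite V) (G : SimpleGraph V), Chordal G ∧ Nonempty (B ↪g CR G) := by
  let S : W → Set W := fun i => {x | x = i ∨ (c x = false ∧ c i = true ∧ B.Adj x i)}
  refine ⟨W ⊕ W, inferInstance, splitGraph S, chordal_split S, ⟨⟨⟨KK S, KK_inj S⟩, ?_⟩⟩⟩
  have hne : ∀ i, (S i).Nonempty := fun i => ⟨i, Or.inl rfl⟩
  have hsub : ∀ i j, i ≠ j → (S i ⊆ S j ↔ (c i = false ∧ c j = true ∧ B.Adj i j)) := by
    intro i j hij
    constructor
    · intro h
      have hi : i ∈ S j := h (Or.inl rfl)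
      rcases hi with e | h'
      · exact absurd e hij
      · exact h'
    · rintro ⟨h1, h2, h3⟩ x hx
      rcases hx with rfl | ⟨_, h5, _⟩
      · exact Or.inr ⟨h1, h2, h3⟩
      · rw [h1] at h5
        exact absurd h5 (by decide)
  intro i j
  show (CR (splitGraph S)).Adj (KK S i) (KK S j) ↔ B.Adj i j
  constructor
  · rintro ⟨hne', hsep⟩
    have hij : i ≠ j := fun e => hne' (by rw [e])
    by_contra hnadj
    apply not_sep S i j hij _ _ hsep
    · rw [hsub i j hij]
      exact fun h => hnadj h.2.2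
    · rw [hsub j i hij.symm]
      exact fun h => hnadj h.2.2.symm
  · intro hadj
    have hij : i ≠ j := hadj.ne
    refine ⟨fun e => hij (KK_inj S e), ?_⟩
    have hc : c i ≠ c j := c.valid hadj
    rcases hi : c i with _ | _
    · have hj : c j = true := by
        rcases hj : c j with _ | _
        · exact absurd (hi.trans hj.symm) hc
        · rfl
      exact sep_of_subset S i j (hne i) ((hsub i j hij).mpr ⟨hi, hj, hadj⟩)
    · have hj : c j = false := by
        rcases hj : c j with _ | _
        · rfl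
        · exact absurd (hi.trans hj.symm) hc
      exact (sep_of_subset S j i (hne j)
        ((hsub j i hij.symm).mpr ⟨hj, hi, hadj.symm⟩)).symm

/-- Q1 fails: the reduced clique graph of a chordal graph can contain induced cycles of every even
length, and every finite bipartite graph as an induced subgraph. -/
theorem result :
    (∀ (W : Type) (_ : Finite W) (B : SimpleGraph W), B.Colorable 2 →
      ∃ (V : Type) (_ : Finite V) (G : SimpleGraph V), Chordal G ∧ Nonempty (B ↪g CR G)) ∧
    (∀ k : ℕ, Even k → ∃ (V : Type) (_ : Finite V) (G : SimpleGraph V), Chordal G ∧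
      Nonempty (SimpleGraph.cycleGraph k ↪g CR G)) ∧
    ¬ ∀ (V : Type) (_ : Finite V) (G : SimpleGraph V), Chordal G → ∀ k : ℕ, 7 ≤ k →
      IsEmpty (SimpleGraph.cycleGraph k ↪g CR G) := by
  have h1 : ∀ (W : Type) (_ : Finite W) (B : SimpleGraph W), B.Colorable 2 →
      ∃ (V : Type) (_ : Finite V) (G : SimpleGraph V), Chordal G ∧ Nonempty (B ↪g CR G) := by
    intro W _ B hB
    have hc : B.Coloring (Fin 2) := hB.some
    exact bipartite_embeds B (SimpleGraph.recolorOfEquiv B (Equiv.symm finTwoEquiv).symm hc)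
  have h2 : ∀ k : ℕ, Even k → ∃ (V : Type) (_ : Finite V) (G : SimpleGraph V), Chordal G ∧
      Nonempty (SimpleGraph.cycleGraph k ↪g CR G) := fun k hk =>
    bipartite_embeds (SimpleGraph.cycleGraph k) (SimpleGraph.cycleGraph.bicoloring_of_even k hk)
  refine ⟨h1, h2, fun h => ?_⟩
  obtain ⟨V, hV, G, hG, ⟨f⟩⟩ := h2 8 (by decide)
  exact (h V hV G hG 8 (by norm_num)).false f

end Pool.Agent.Results.MP_0a00ee_co.LongInducedCycles
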